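import Pool.Agent.H68.L.Lp
import Pool.Graph.R_seed8.H122R2.K5.Lower4

/-!
# The `ℓ_p`-version of Turán's (3,4)-problem for `6/5 ≤ p ≤ 17/5`

For every real `p` with `6/5 ≤ p ≤ 17/5` and every `K_4^3`-free 3-graph `G` on `n` vertices, the sum
of the `p`-th powers of the codegrees of the pairs of vertices is at most
`(1 + 2^(p+1)) / (2 * 3^(p+1)) * n^(p+2)`, and Turán's construction attains this constant
asymptotically.
-/

set_option autoImplicit false
open Finset
open scoped Classical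

namespace Pool.Agent.Results.MP_f1799f_co.CodegreePowersWide

/-- The 3-graph `G` has no four vertices spanning all four triples. -/
def K43Free {n : ℕ} (G : Finset (Finset (Fin n))) : Prop :=
  ∀ S : Finset (Fin n), S.card = 4 → ∃ s ⊆ S, s.card = 3 ∧ s ∉ G

/-- The number of edges of `G` containing `P`. -/
noncomputable def codegree {n : ℕ} (G : Finset (Finset (Fin n))) (P : Finset (Fin n)) : ℕ :=
  (G.filter (P ⊆ ·)).card

/-- For real `p` with `6/5 ≤ p ≤ 17/5`, the sum of the `p`-th powers of the codegrees of a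
`K_4^3`-free 3-graph on `n` vertices is at most `(1 + 2^(p+1)) / (2 * 3^(p+1)) * n^(p+2)`, and the
constant is best possible. -/
theorem result (p : ℝ) (hp1 : 6 / 5 ≤ p) (hp2 : p ≤ 17 / 5) :
    (∀ (n : ℕ) (G : Finset (Finset (Fin n))), (∀ e ∈ G, e.card = 3) → K43Free G →
      ∑ P ∈ (univ : Finset (Fin n)).powersetCard 2, (codegree G P : ℝ) ^ p
        ≤ (1 + 2 ^ (p + 1)) / (2 * 3 ^ (p + 1)) * (n : ℝ) ^ (p + 2)) ∧
    (∀ c : ℝ, c < (1 + 2 ^ (p + 1)) / (2 * 3 ^ (p + 1)) → ∃ N : ℕ, ∀ m : ℕ, N ≤ m →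
      ∃ G : Finset (Finset (Fin (3 * m))), (∀ e ∈ G, e.card = 3) ∧ K43Free G ∧
        c * ((3 * m : ℕ) : ℝ) ^ (p + 2)
          < ∑ P ∈ (univ : Finset (Fin (3 * m))).powersetCard 2, (codegree G P : ℝ) ^ p) := by
  constructor
  · intro n G h3 hF
    have h := H68.L.lp_pairs h3 hF p hp1 hp2
    rw [Fintype.card_fin] at h
    have e : ∀ P, codegree G P = H122R2.N6.deg2 G P := fun P => by
      unfold codegree H122R2.N6.deg2
      exact congrArg Finset.card (Finset.ext fun x => by simp only [mem_filter])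
    simp only [e]
    exact h
  · intro c hc
    obtain ⟨N, hN⟩ := H122R2.K5.sharp4 p (by linarith) c hc
    refine ⟨N, fun m hm => ⟨H122R2.K5.tur (3 * m), H122R2.K5.tur_card _, ?_, hN m hm⟩⟩
    intro S hS
    exact H122R2.K5.tur_free _ S hS

end Pool.Agent.Results.MP_f1799f_co.CodegreePowersWide
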