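import Pool.Agent.H68.E4N.Cov

/-!
# Turán's `(3,4)`-conjecture for 3-graphs without covering sets of more than 480 vertices

A set `S` of vertices of a 3-graph `H` is covering if any two vertices of `S` lie in an edge of `H`
contained in `S`. It is proved that Turán's bound `5/9` for the density holds for all `K_4^3`-free
3-graphs whose covering sets have at most `480` vertices, in the weighted (Lagrangian) form. This
includes all `K_4^3`-free 3-graphs with at most `480` vertices and arbitrary weights of the vertices,
and all `K_4^3`-free 3-graphs whose vertices can be coloured with `480` colours such that the vertices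
of every edge have three colours.

Outline: a maximizer of the Lagrangian polynomial with minimal support lives on a covering set, and all
its weighted vertex degrees are equal to the density. For weighted vertices two of the seven vertices of
a flag certificate of order seven can be equal, with probability at least `1/480` for a given pair. The
certificate contains squares which at equal vertices become known multiples of the square of a linear
function of the weighted degree, so that the equal pairs give a gain of the order `1/480`, and the
inequality for seven different vertices needs to be proved only up to this gain.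
-/

set_option autoImplicit false
open Finset

namespace Pool.Agent.Results.MP_f1799f_co.CoveringSets480

/-- Turán's bound `5/9` for a 3-graph `H` on `n` vertices such that every four vertices contain a triple
outside `H`, and such that every covering set of `H` (a set in which any two vertices lie in an edge of
`H` contained in the set) has at most `480` vertices: for all nonnegative weights `w` of the vertices,
`6 ∑_{e ∈ H} ∏_{v ∈ e} w v ≤ 5/9 (∑ w v)³`. The weights `w = 1` give `|H| ≤ 5 n³ / 54`. -/
theorem result {n : ℕ} (H : Finset (Finset (Fin n))) (h3 : ∀ e ∈ H, e.card = 3)
    (hK : ∀ S : Finset (Fin n), S.card = 4 → ∃ T ⊆ S, T.card = 3 ∧ T ∉ H)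
    (hc : ∀ S : Finset (Fin n), (∀ x ∈ S, ∀ y ∈ S, x ≠ y → ∃ e ∈ H, x ∈ e ∧ y ∈ e ∧ e ⊆ S) → S.card ≤ 480)
    (w : Fin n → ℝ) (hw : ∀ v, 0 ≤ w v) :
    6 * ∑ e ∈ H, ∏ v ∈ e, w v ≤ 5 / 9 * (∑ v, w v) ^ 3 :=
  Pool.Agent.H68.E4N.cov h3 hK hc hw

end Pool.Agent.Results.MP_f1799f_co.CoveringSets480
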