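import Pool.Agent.H68.E4.Main
import Pool.Agent.H68.F7.Sup

/-!
# The Turán density of the complete 3-graph on four vertices is at most 0.5574

The flag algebra method of order seven: the certificate consists of positive semidefinite forms on the
flags with six vertices over types on five vertices, and on the flags with five vertices over types on three
vertices. The inequality between the densities of seven-vertex 3-graphs is checked by the kernel.
-/

set_option autoImplicit false

namespace Pool.Agent.Results.MP_f1799f_co.FlagBound5574

/-- The Turán density of the complete 3-graph on four vertices is at most `0.5574`: the largest number of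
triples on `n` points without four points spanning all four triples, divided by `C(n,3)`, tends to a limit
which is at most `0.5574`. -/
theorem result :
    ∃ L : ℝ, L ≤ 0.5574 ∧
    Filter.Tendsto
      (fun n : ℕ =>
        ((sSup {m : ℕ | ∃ E : Finset (Finset (Fin n)),
            (∀ e ∈ E, e.card = 3) ∧
            (∀ S : Finset (Fin n), S.card = 4 → ∃ T ⊆ S, T.card = 3 ∧ T ∉ E) ∧
            E.card = m} : ℕ) : ℝ) / ((n.choose 3 : ℕ) : ℝ))
      Filter.atTop (nhds L) := by
  refine ⟨Pool.Agent.H120R2.Clique.turanDensity 3 4, Pool.Agent.H68.E4.main, ?_⟩
  have h := Pool.Agent.H120R2.Clique.ratio_tendsto 3 4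
  refine h.congr fun n => ?_
  rw [Pool.Agent.H68.F7.sup_eq n 4 (by norm_num)]

end Pool.Agent.Results.MP_f1799f_co.FlagBound5574
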