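import Pool.Agent.H68.L7.Main
import Pool.Agent.H68.L.Tri

/-!
# One-edge quadruples in `K_4^3`-free 3-graphs

Let `H` be a `K_4^3`-free 3-graph on `n` vertices and let `N` be the number of four-element vertex sets
containing exactly one edge of `H`. Then `n |H| ≤ (5/54) n^4 + (3/10) N`. In densities: `x ≤ 5/9 + 0.075 p_1`,
where `p_1` is the density of the four-element sets with exactly one edge. For `p_1 = 0` this is the theorem of
Razborov on Turán's `(3,4)`-problem with an additional restriction.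

The certificate is of order seven: positive semidefinite forms on the flags with six vertices over types on
five vertices, and on the flags with five vertices over types on three vertices, tight on Turán's construction.
The inequality for seven-vertex 3-graphs is checked by the kernel.
-/

set_option autoImplicit false
open Finset
open Pool.Agent.H68.F7
open scoped Classical

namespace Pool.Agent.Results.MP_f1799f_co.OneEdgeTradeoff

/-- The 3-graph `H` has no four vertices spanning all four triples. -/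
def K43Free {n : ℕ} (H : Finset (Finset (Fin n))) : Prop :=
  ∀ S : Finset (Fin n), S.card = 4 → ∃ s ⊆ S, s.card = 3 ∧ s ∉ H

/-- The number of four-element vertex sets containing exactly one member of `H`. -/
def oneEdgeQuadruples {n : ℕ} (H : Finset (Finset (Fin n))) : ℕ :=
  (((univ : Finset (Fin n)).powersetCard 4).filter fun S => (H.filter fun s => s ⊆ S).card = 1).card

theorem filt {α : Type} (p : α → Prop) (H : Finset α) (i j : DecidablePred p) : @filter _ p i H = @filter _ p j H := by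
  have : i = j := Subsingleton.elim _ _
  rw [this]

theorem one_eq {n : ℕ} (H : Finset (Finset (Fin n))) : H122R2.N6.oneEdge H = oneEdgeQuadruples H := by
  unfold H122R2.N6.oneEdge oneEdgeQuadruples
  refine congrArg Finset.card ?_
  ext S
  simp only [mem_filter]
  refine and_congr_right fun _ => ?_
  exact iff_of_eq (congrArg (fun t : Finset (Finset (Fin n)) => t.card = 1) (filt _ H _ _))

theorem main (n : ℕ) (H : Finset (Finset (Fin n))) (h3 : ∀ e ∈ H, e.card = 3) (hK : K43Free H) :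
    270 * n * H.card ≤ 25 * n ^ 4 + 81 * oneEdgeQuadruples H := by
  rcases Nat.eq_zero_or_pos n with h0 | hn
  · subst h0
    simp only [mul_zero, zero_mul]
    exact Nat.zero_le _
  have hf : Free 4 (fun S : Finset (Fin n) => S ∈ H) := H68.L.free_of h3 hK
  have hn' : 0 < Fintype.card (Fin n) := by rwa [Fintype.card_fin]
  have c6 := Pool.Agent.H122R2.N6.six_card_le h3
  have c4 := Pool.Agent.H122R2.N6.one_tuples_le h3
  have k1 := @H68.L7.main (Fin n) _ (fun a b => Classical.propDecidable (a = b)) _ hf hn'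
  rw [H68.L.e3_tri, Fintype.card_fin] at k1
  rw [one_eq] at c4
  simp only [H68.F9.z1_eq] at k1
  have e : ∑ x, ∑ y, ∑ z, ∑ w, (if H122R2.N6.tri H x y z + H122R2.N6.tri H x y w + (H122R2.N6.tri H x z w + H122R2.N6.tri H y z w) = 1 then 1 else 0)
      ≤ 24 * oneEdgeQuadruples H := by
    refine le_trans (le_of_eq ?_) c4
    refine sum_congr rfl fun x _ => sum_congr rfl fun y _ => sum_congr rfl fun z _ => sum_congr rfl fun w _ => ?_
    rw [← add_assoc]
  have k2 : (210 * 108000000 * (n : ℤ) * ((6 * H.card : ℕ) : ℤ)) ≤ 12600000000 * (n : ℤ) ^ 4 + 105 * 16200000 * ((24 * oneEdgeQuadruples H : ℕ) : ℤ) := by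
    refine le_trans (mul_le_mul_of_nonneg_left (by exact_mod_cast c6) (by positivity)) (le_trans k1 ?_)
    have : ((∑ x, ∑ y, ∑ z, ∑ w, (if H122R2.N6.tri H x y z + H122R2.N6.tri H x y w + (H122R2.N6.tri H x z w + H122R2.N6.tri H y z w) = 1 then 1 else 0) : ℕ) : ℤ)
      ≤ ((24 * oneEdgeQuadruples H : ℕ) : ℤ) := by exact_mod_cast e
    linarith
  zify
  push_cast at k2
  linarith

theorem real (n : ℕ) (H : Finset (Finset (Fin n))) (h3 : ∀ e ∈ H, e.card = 3) (hK : K43Free H) :
    (n : ℝ) * (H.card : ℝ) ≤ 5 / 54 * (n : ℝ) ^ 4 + 3 / 10 * (oneEdgeQuadruples H : ℝ) := by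
  have k4 : (270 : ℝ) * n * H.card ≤ 25 * (n : ℝ) ^ 4 + 81 * oneEdgeQuadruples H := by exact_mod_cast main n H h3 hK
  linarith

theorem choose_four (n : ℕ) : ((n.choose 4 : ℕ) : ℝ) * 4 = ((n.choose 3 : ℕ) : ℝ) * ((n : ℝ) - 3) := by
  have h := Nat.choose_succ_right_eq n 3
  rcases Nat.lt_or_ge n 3 with h1 | h1
  · have e3 : n.choose 3 = 0 := Nat.choose_eq_zero_of_lt h1
    have e4 : n.choose 4 = 0 := Nat.choose_eq_zero_of_lt (by omega)
    rw [e3, e4]; simp
  · have h2 : ((n.choose (3 + 1) * (3 + 1) : ℕ) : ℝ) = ((n.choose 3 * (n - 3) : ℕ) : ℝ) := by rw [h]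
    push_cast [Nat.cast_sub h1] at h2
    exact h2

theorem choose_three (n : ℕ) : ((n.choose 3 : ℕ) : ℝ) * 6 = (n : ℝ) * ((n : ℝ) - 1) * ((n : ℝ) - 2) := by
  induction n with
  | zero => simp
  | succ n ih =>
    have h2 : ((n.choose 2 : ℕ) : ℝ) = (n : ℝ) * ((n : ℝ) - 1) / 2 := Nat.cast_choose_two ℝ n
    rw [Nat.choose_succ_succ' n 2]
    push_cast
    rw [h2]
    linear_combination ih

theorem density (n : ℕ) (hn : 3 ≤ n) (H : Finset (Finset (Fin n))) (h3 : ∀ e ∈ H, e.card = 3) (hK : K43Free H) :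
    (H.card : ℝ) ≤ (5 / 9 + 3 / 40 * ((oneEdgeQuadruples H : ℝ) / ((n.choose 4 : ℕ) : ℝ)) + 6 / (n : ℝ)) *
      ((n.choose 3 : ℕ) : ℝ) := by
  have h1 := real n H h3 hK
  have e4 := choose_four n
  have e3 := choose_three n
  have hn3 : (3 : ℝ) ≤ n := by exact_mod_cast hn
  have hn0 : (0 : ℝ) < n := by linarith
  set c3 : ℝ := ((n.choose 3 : ℕ) : ℝ) with hc3
  set c4 : ℝ := ((n.choose 4 : ℕ) : ℝ) with hc4
  set N : ℝ := (oneEdgeQuadruples H : ℝ) with hN
  have hN0 : 0 ≤ N := Nat.cast_nonneg _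
  have p3 : 0 ≤ c3 := Nat.cast_nonneg _
  have p4 : 0 ≤ c4 := Nat.cast_nonneg _
  -- `N ≤ C(n,4)`
  have hle : N ≤ c4 := by
    rw [hN, hc4]
    have : oneEdgeQuadruples H ≤ n.choose 4 := by
      unfold oneEdgeQuadruples
      refine (card_filter_le _ _).trans ?_
      rw [card_powersetCard, card_univ, Fintype.card_fin]
    exact_mod_cast this
  have q1 : 3 / 10 * N ≤ n * (3 / 40 * (N / c4) * c3) := by
    rcases p4.eq_or_lt with h0 | h0
    · have : N = 0 := le_antisymm (by rw [h0]; exact hle) hN0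
      rw [this]; simp
    · rw [show (n : ℝ) * (3 / 40 * (N / c4) * c3) = (3 / 40 * N * (n * c3)) / c4 by ring, le_div_iff₀ h0]
      have : 4 * c4 ≤ n * c3 := by nlinarith
      nlinarith
  have q2 : 5 / 54 * (n : ℝ) ^ 4 ≤ n * ((5 / 9 + 6 / n) * c3) := by
    have e6 : n * ((5 / 9 + 6 / n) * c3) = (5 / 9 * n + 6) * c3 := by field_simp
    rw [e6, show c3 = (n : ℝ) * ((n : ℝ) - 1) * ((n : ℝ) - 2) / 6 by linarith]
    have f : (0 : ℝ) ≤ n * (39 * n ^ 2 - 152 * n + 108) := by
      refine mul_nonneg hn0.le ?_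
      nlinarith
    nlinarith
  have q3 : (n : ℝ) * H.card ≤ n * ((5 / 9 + 3 / 40 * (N / c4) + 6 / n) * c3) := by
    have : n * ((5 / 9 + 3 / 40 * (N / c4) + 6 / n) * c3) = n * ((5 / 9 + 6 / n) * c3) + n * (3 / 40 * (N / c4) * c3) := by ring
    rw [this]
    linarith
  exact le_of_mul_le_mul_left q3 hn0

/-- **Main theorem.** (1) Every `K_4^3`-free 3-graph `H` on `n` vertices in which exactly `N` four-element vertex sets
contain exactly one edge satisfies `n |H| ≤ (5/54) n^4 + (3/10) N`. (2) In densities: if `n ≥ 3`, then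
`|H| ≤ (5/9 + 0.075 p + 6/n) C(n,3)`, where `p = N / C(n,4)`. -/
theorem result :
    (∀ (n : ℕ) (H : Finset (Finset (Fin n))), (∀ e ∈ H, e.card = 3) → K43Free H →
      (n : ℝ) * (H.card : ℝ) ≤ 5 / 54 * (n : ℝ) ^ 4 + 3 / 10 * (oneEdgeQuadruples H : ℝ)) ∧
    (∀ (n : ℕ), 3 ≤ n → ∀ (H : Finset (Finset (Fin n))), (∀ e ∈ H, e.card = 3) → K43Free H →
      (H.card : ℝ) ≤ (5 / 9 + 3 / 40 * ((oneEdgeQuadruples H : ℝ) / ((n.choose 4 : ℕ) : ℝ)) + 6 / (n : ℝ)) *
        ((n.choose 3 : ℕ) : ℝ)) :=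
  ⟨real, density⟩

end Pool.Agent.Results.MP_f1799f_co.OneEdgeTradeoff
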